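import Mathlib
import Pool.Agent.Helper47.Chow.Split

/-!
# Murre's conjecture (D) and splittings of motives

Suppose that `h(Y) = h(X)(-r) ⊕ N`, where `N` has a Chow-Künneth decomposition and only nilpotent
homologically trivial endomorphisms.  Then `X` has a Chow-Künneth decomposition if and only if `Y`
has one, and if `N` satisfies (D) in codimension `i + r`, all Chow-Künneth decompositions of `Y`
satisfy (D) in codimension `i + r` if and only if all those of `X` satisfy (D) in codimension `i`.

Examples: `Y` the blow-up of `X` in points and curves (`r = 0`), `Y` a cubic fourfold with an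
associated K3 surface `X` (`r = 1`).
-/

universe u v w

open CategoryTheory AlgebraicGeometry Limits

namespace Pool.Agent.Helper47.Withdrawn.SplittingInvariance

open Pool.Agent.Helper10 Pool.Agent.Helper10.SmProjVar Pool.Agent.Helper47.Chow

theorem result {k : Type u} [Field k] {K : Type v} [Field K] [CharZero K]
    {W : WeilCohomology.{u, v, w} k K} (C : ChowTheory W) (X Y : SmProjVar k) (r : ℕ)
    (a : CH (X.prod Y)) (b : CH (Y.prod X)) (ν : ℕ → CH (Y.prod Y))
    (hs : C.IsSplitting X Y r a b ν) :
    ((∃ ξ, C.IsCK X ξ) ↔ ∃ π, C.IsCK Y π) ∧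
    ∀ i, (∀ j, 2 * (i + r) ≤ j → ∀ c ∈ CHi Y (i + r), C.ops.cl Y c = 0 → C.act (ν j) c = 0) →
      ((∀ π, C.IsCK Y π → C.MurreD Y π (i + r)) ↔ ∀ ξ, C.IsCK X ξ → C.MurreD X ξ i) :=
  splitting_invariance hs

end Pool.Agent.Helper47.Withdrawn.SplittingInvariance
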